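import Pool.Agent.E8helper29.Zn.Stm3

/-!
Project ZU, U3: a nonnegative weight is a mixture of weights with at most `n + 1` atoms, the same mass
and the same barycentre.
-/

set_option autoImplicit false

namespace Pool.Agent.E8helper73.ZU

open Finset Pool.Agent.Helper649.Zono Pool.Agent.E8helper29.Zn

/-- the weights with few atoms -/
def SS {n M : ℕ} (w : Fin M → E n) (p : Fin M → ℝ) : Set (Fin M → ℝ) :=
  {q | (∀ j, 0 ≤ q j) ∧ (∀ j, p j = 0 → q j = 0) ∧ (univ.filter (fun j => q j ≠ 0)).card ≤ n + 1 ∧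
    ∑ j, q j = ∑ j, p j ∧ ∑ j, q j • w j = ∑ j, p j • w j}

/-- moving in a direction until an atom disappears -/
theorem dir {M : ℕ} (p c : Fin M → ℝ) (hp : ∀ j, 0 ≤ p j) (hc : ∀ j, p j = 0 → c j = 0)
    (hn : ∃ j, c j < 0) :
    ∃ t : ℝ, 0 < t ∧ (∀ j, 0 ≤ p j + t * c j) ∧ ∃ j, p j ≠ 0 ∧ p j + t * c j = 0 := by
  obtain ⟨j₀, hj₀⟩ := hn
  obtain ⟨i, hi, hmin⟩ := Finset.exists_min_image (univ.filter fun j => c j < 0)
    (fun j => p j / (-c j)) ⟨j₀, by simp [hj₀]⟩
  rw [mem_filter] at hi
  have hi2 := hi.2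
  have hpi : p i ≠ 0 := fun h => by
    have := hc i h
    linarith
  have hpi' : 0 < p i := lt_of_le_of_ne (hp i) (Ne.symm hpi)
  refine ⟨p i / (-c i), div_pos hpi' (by linarith), fun j => ?_, i, hpi, ?_⟩
  · by_cases hj : c j < 0
    · have h1 := hmin j (by simp [hj])
      have h2 : p i / (-c i) * (-c j) ≤ p j := by
        rw [le_div_iff₀ (by linarith : (0:ℝ) < -c j)] at h1
        exact h1
      linarith
    · have h3 : 0 ≤ p i / (-c i) := (div_pos hpi' (by linarith)).le
      have h4 : 0 ≤ p i / (-c i) * c j := mul_nonneg h3 (not_lt.1 hj)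
      linarith [hp j]
  · have : c i ≠ 0 := ne_of_lt hi2
    field_simp
    ring

theorem rel {n M : ℕ} (w : Fin M → E n) (p : Fin M → ℝ)
    (hcard : n + 1 < (univ.filter (fun j => p j ≠ 0)).card) :
    ∃ c : Fin M → ℝ, (∀ j, p j = 0 → c j = 0) ∧ ∑ j, c j = 0 ∧ ∑ j, c j • w j = 0 ∧
      ∃ j, c j ≠ 0 := by
  classical
  set s := univ.filter (fun j => p j ≠ 0) with hs
  have hfin : Module.finrank ℝ (E n × ℝ) = n + 1 := by
    rw [Module.finrank_prod]
    simp
  have hdep : ¬ LinearIndependent ℝ (fun j : s => ((w j, (1 : ℝ)) : E n × ℝ)) := by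
    intro h
    have h1 := h.fintype_card_le_finrank
    rw [hfin, Fintype.card_coe] at h1
    omega
  rw [Fintype.not_linearIndependent_iff] at hdep
  obtain ⟨g, hg, ⟨i, hi⟩⟩ := hdep
  have key : ∀ {V : Type} [AddCommGroup V] [Module ℝ V] (v : Fin M → V),
      ∑ j, (if h : j ∈ s then g ⟨j, h⟩ else 0) • v j = ∑ j : s, g j • v j := by
    intro V _ _ v
    rw [← Finset.sum_subset (subset_univ s) (f := fun j => (if h : j ∈ s then g ⟨j, h⟩ else 0) • v j)]
    · rw [← Finset.sum_attach s]
      refine Finset.sum_congr rfl fun j _ => ?_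
      rw [dif_pos j.2]
    · intro j _ hj
      rw [dif_neg hj, zero_smul]
  have hg1 : ∑ j : s, g j • w j = 0 := by
    have := congrArg Prod.fst hg
    rw [Prod.fst_sum] at this
    simpa using this
  have hg2 : ∑ j : s, g j • (1 : ℝ) = 0 := by
    have := congrArg Prod.snd hg
    rw [Prod.snd_sum] at this
    simpa using this
  refine ⟨fun j => if h : j ∈ s then g ⟨j, h⟩ else 0, fun j hj => ?_, ?_, ?_, ⟨i, ?_⟩⟩
  · have : j ∉ s := by
      rw [hs, mem_filter]
      exact fun h => h.2 hj
    simp only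
    rw [dif_neg this]
  · have := key (fun _ => (1 : ℝ))
    simp only [smul_eq_mul, mul_one] at this hg2
    rw [this, hg2]
  · rw [key w, hg1]
  · simp only
    rw [dif_pos i.2]
    exact hi

theorem signs {M : ℕ} (c : Fin M → ℝ) (h0 : ∑ j, c j = 0) (hne : ∃ j, c j ≠ 0) :
    (∃ j, c j < 0) ∧ ∃ j, 0 < c j := by
  obtain ⟨i, hi⟩ := hne
  constructor
  · by_contra h
    push Not at h
    exact hi ((Finset.sum_eq_zero_iff_of_nonneg fun j _ => h j).1 h0 i (mem_univ _))
  · by_contra h
    push Not at h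
    exact hi ((Finset.sum_eq_zero_iff_of_nonpos fun j _ => h j).1 h0 i (mem_univ _))

theorem hull {n M : ℕ} (w : Fin M → E n) : ∀ (N : ℕ) (p : Fin M → ℝ), (∀ j, 0 ≤ p j) →
    (univ.filter (fun j => p j ≠ 0)).card = N → p ∈ convexHull ℝ (SS w p) := by
  intro N
  induction N using Nat.strong_induction_on with
  | _ N ih =>
    intro p hp hN
    by_cases hcard : (univ.filter (fun j => p j ≠ 0)).card ≤ n + 1
    · exact subset_convexHull ℝ _ ⟨hp, fun _ h => h, hcard, rfl, rfl⟩
    · push Not at hcard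
      obtain ⟨c, hc, hc0, hcw, hcne⟩ := rel w p hcard
      obtain ⟨hneg, hpos⟩ := signs c hc0 hcne
      obtain ⟨t, ht, ht1, j1, hj1, hj1'⟩ := dir p c hp hc hneg
      obtain ⟨u, hu, hu1, j2, hj2, hj2'⟩ := dir p (fun j => -c j) hp (fun j hj => by
        rw [hc j hj, neg_zero]) (by
          obtain ⟨j, hj⟩ := hpos
          exact ⟨j, by linarith⟩)
      have main : ∀ (r : ℝ), (∀ j, 0 ≤ p j + r * c j) → (∃ j, p j ≠ 0 ∧ p j + r * c j = 0) →
          (fun j => p j + r * c j) ∈ convexHull ℝ (SS w p) := by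
        intro r hr ⟨j, hj, hj'⟩
        have hlt : (univ.filter (fun j => p j + r * c j ≠ 0)).card < N := by
          rw [← hN]
          refine Finset.card_lt_card ?_
          rw [Finset.ssubset_iff_of_subset]
          · exact ⟨j, by simp [hj], by simp [hj']⟩
          · intro i hi
            rw [mem_filter] at hi ⊢
            refine ⟨mem_univ _, fun h => hi.2 ?_⟩
            rw [h, hc i h]
            ring
        have h1 := ih _ hlt (fun j => p j + r * c j) hr rfl
        refine convexHull_mono ?_ h1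
        rintro q ⟨h2, h3, h4, h5, h6⟩
        refine ⟨h2, fun i hi => h3 i (by show p i + r * c i = 0; rw [hi, hc i hi]; ring), h4, ?_, ?_⟩
        · rw [h5, Finset.sum_add_distrib, ← Finset.mul_sum, hc0, mul_zero, add_zero]
        · rw [h6]
          have : ∀ j, (p j + r * c j) • w j = p j • w j + r • (c j • w j) := fun j => by
            rw [add_smul, mul_smul]
          rw [Finset.sum_congr rfl fun j _ => this j, Finset.sum_add_distrib, ← Finset.smul_sum, hcw,
            smul_zero, add_zero]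
      have m1 := main t ht1 ⟨j1, hj1, hj1'⟩
      have m2 := main (-u) (fun j => by have := hu1 j; linarith)
        ⟨j2, hj2, by linarith⟩
      have hsum : u / (t + u) + t / (t + u) = 1 := by
        field_simp
        ring
      have h3 := (convex_convexHull ℝ (SS w p)) m1 m2 (a := u / (t + u)) (b := t / (t + u))
        (by positivity) (by positivity) hsum
      have h4 : (u / (t + u)) • (fun j => p j + t * c j) + (t / (t + u)) • (fun j => p j + -u * c j) = p := by
        funext j
        simp only [Pi.add_apply, Pi.smul_apply, smul_eq_mul]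
        have : t + u ≠ 0 := by positivity
        field_simp
        ring
      rw [h4] at h3
      exact h3

theorem u3 : StmBar := by
  intro n M w p hp
  have h := hull w _ p hp rfl
  rw [mem_convexHull_iff_exists_fintype] at h
  obtain ⟨ι, hι, lam, q, h1, h2, h3, h4⟩ := h
  let e : ι ≃ Fin (Fintype.card ι) := Fintype.equivFin ι
  refine ⟨Fintype.card ι, fun t => lam (e.symm t), fun t => q (e.symm t), fun t => h1 _, ?_,
    fun t => (h3 _).1, fun t => (h3 _).2.1, fun t => (h3 _).2.2.1, fun t => (h3 _).2.2.2.1,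
    fun t => (h3 _).2.2.2.2, fun j => ?_⟩
  · rw [Equiv.sum_comp e.symm (fun i => lam i)]
    exact h2
  · rw [Equiv.sum_comp e.symm (fun i => lam i * q i j), ← h4]
    rw [Finset.sum_apply]
    rfl

end Pool.Agent.E8helper73.ZU
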